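import Mathlib

/-!
Nondegenerate closed curves in `ℝ^n`, multiply traversed circles, Frenet frames.
-/

open Real
open scoped ContDiff

namespace Pool.Agent.K1H62.ND

/-- A smooth closed curve in `ℝ^n`: a smooth `2π`-periodic map `ℝ → ℝ^n`. -/
def IsClosedCurve (n : ℕ) (γ : ℝ → EuclideanSpace ℝ (Fin n)) : Prop :=
  ContDiff ℝ ∞ γ ∧ Function.Periodic γ (2 * π)

/-- A curve in `ℝ^n` is nondegenerate if its first `n` derivatives are linearly independent at every
parameter value (so their exterior product does not vanish). -/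
def Nondegenerate (n : ℕ) (γ : ℝ → EuclideanSpace ℝ (Fin n)) : Prop :=
  ∀ t : ℝ, LinearIndependent ℝ (fun j : Fin n => iteratedDeriv ((j : ℕ) + 1) γ t)

/-- The plane unit circle in `ℝ^n` traversed `m` times: `c_m(t) = (cos mt, sin mt, 0, …, 0)`. -/
noncomputable def circle (n m : ℕ) (t : ℝ) : EuclideanSpace ℝ (Fin n) :=
  WithLp.toLp 2 fun i => if (i : ℕ) = 0 then cos (m * t) else if (i : ℕ) = 1 then sin (m * t) else 0

/-- Every `C^∞`-neighbourhood of `c_m` in the space of smooth closed curves in `ℝ^n` contains a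
nondegenerate closed curve. (The sets of smooth closed curves whose derivatives of order at most `r`
are uniformly `ε`-close to those of `c_m` form a basis of the `C^∞`-neighbourhoods of `c_m`.) -/
def Perturbable (n m : ℕ) : Prop :=
  ∀ (r : ℕ) (ε : ℝ), 0 < ε → ∃ γ : ℝ → EuclideanSpace ℝ (Fin n),
    IsClosedCurve n γ ∧ Nondegenerate n γ ∧
    ∀ j ≤ r, ∀ t : ℝ, ‖iteratedDeriv j γ t - iteratedDeriv j (circle n m) t‖ < ε

end Pool.Agent.K1H62.ND
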