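import Pool.Agent.K1H62.ND.Osc
import Pool.Agent.K1H62.ND.Defs

open Real Finset
open scoped ContDiff

namespace Pool.Agent.K1H62.ND

/-! ### Coordinates of iterated derivatives -/

lemma coord_contDiff {n : ℕ} {γ : ℝ → EuclideanSpace ℝ (Fin n)} (h : ContDiff ℝ ∞ γ) (i : Fin n) :
    ContDiff ℝ ∞ (fun t => γ t i) := by
  exact (contDiff_euclidean.1 h) i

lemma iteratedDeriv_coord {n : ℕ} {γ : ℝ → EuclideanSpace ℝ (Fin n)} (h : ContDiff ℝ ∞ γ)
    (i : Fin n) (j : ℕ) (t : ℝ) :
    (iteratedDeriv j γ t) i = iteratedDeriv j (fun s => γ s i) t := by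
  induction j generalizing γ t with
  | zero => simp
  | succ j ih =>
    rw [iteratedDeriv_succ', iteratedDeriv_succ']
    have hd : ContDiff ℝ ∞ (deriv γ) := by
      have := (contDiff_infty_iff_deriv (𝕜 := ℝ)).1 h
      exact this.2
    rw [ih hd]
    congr 1
    funext s
    have h1 : HasDerivAt γ (deriv γ s) s :=
      ((h.differentiable (by simp)) s).hasDerivAt
    have h2 := (EuclideanSpace.proj (𝕜 := ℝ) i).hasFDerivAt.comp_hasDerivAt s h1
    exact h2.deriv.symm

/-! ### The coordinate functions of the model curves -/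

/-- coordinate functions of the modes `1, 2, 3, …` -/
noncomputable def X (i : ℕ) (t : ℝ) : ℝ :=
  if i % 2 = 0 then cos (((i / 2 : ℕ) + 1 : ℝ) * t) else sin (((i / 2 : ℕ) + 1 : ℝ) * t)

lemma X_even (k : ℕ) (t : ℝ) : X (2 * k) t = cos (((k : ℝ) + 1) * t) := by
  unfold X
  simp

lemma X_odd (k : ℕ) (t : ℝ) : X (2 * k + 1) t = sin (((k : ℝ) + 1) * t) := by
  unfold X
  have h1 : (2 * k + 1) % 2 = 1 := by omega
  have h2 : (2 * k + 1) / 2 = k := by omega
  simp [h1, h2]

lemma X_contDiff (i : ℕ) : ContDiff ℝ ∞ (X i) := by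
  unfold X
  by_cases h : i % 2 = 0
  · simp only [h, if_true]
    fun_prop
  · simp only [h, if_false]
    fun_prop

lemma X_periodic (i : ℕ) : Function.Periodic (X i) (2 * π) := by
  intro t
  unfold X
  have h1 : (((i / 2 : ℕ) + 1 : ℝ)) * (t + 2 * π) = (((i / 2 : ℕ) + 1 : ℝ)) * t
      + ((i / 2 + 1 : ℕ) : ℝ) * (2 * π) := by push_cast; ring
  rw [h1, cos_add_nat_mul_two_pi, sin_add_nat_mul_two_pi]

/-- value of the polynomial `∏_{k<J} (X + (k+1)²)` at `-m²` -/
noncomputable def P (J : ℕ) (m : ℝ) : ℝ := (modePoly (range J)).eval (-m ^ 2)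

/-- the three additional coordinate functions, `q = J + 1` -/
noncomputable def Y (J : ℕ) (i : ℕ) (t : ℝ) : ℝ :=
  let q : ℝ := (J : ℝ) + 1
  if i = 0 then
    4 / (q * P J q) * sin (q * t) - 1 / (3 * q * P J (3 * q)) * sin (3 * q * t)
  else if i = 1 then
    -2 / (q * P J q) * cos (q * t) + 1 / (3 * q * P J (3 * q)) * cos (3 * q * t)
  else 1 / (2 * q * P J (2 * q)) * sin (2 * q * t)

lemma Y_contDiff (J i : ℕ) : ContDiff ℝ ∞ (Y J i) := by
  unfold Y
  by_cases h : i = 0
  · simp only [h, if_true]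
    fun_prop
  · by_cases h' : i = 1
    · simp only [h', one_ne_zero, if_true, if_false]
      fun_prop
    · simp only [h, h', if_false]
      fun_prop

lemma Y_periodic (J i : ℕ) : Function.Periodic (Y J i) (2 * π) := by
  intro t
  unfold Y
  have h1 : ((J : ℝ) + 1) * (t + 2 * π) = ((J : ℝ) + 1) * t + ((J + 1 : ℕ) : ℝ) * (2 * π) := by
    push_cast; ring
  have h2 : 2 * ((J : ℝ) + 1) * (t + 2 * π) = 2 * ((J : ℝ) + 1) * t
      + ((2 * (J + 1) : ℕ) : ℝ) * (2 * π) := by
    push_cast; ring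
  have h3 : 3 * ((J : ℝ) + 1) * (t + 2 * π) = 3 * ((J : ℝ) + 1) * t
      + ((3 * (J + 1) : ℕ) : ℝ) * (2 * π) := by
    push_cast; ring
  simp only [h1, h2, h3, cos_add_nat_mul_two_pi, sin_add_nat_mul_two_pi]

/-- coordinates of the model curve: modes `1..J`, then the triple `Y` -/
noncomputable def Z (J : ℕ) (i : ℕ) : ℝ → ℝ := if i < 2 * J then X i else Y J (i - 2 * J)

lemma Z_contDiff (J i : ℕ) : ContDiff ℝ ∞ (Z J i) := by
  unfold Z
  by_cases h : i < 2 * J
  · simp only [h, if_true]; exact X_contDiff i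
  · simp only [h, if_false]; exact Y_contDiff J _

lemma Z_periodic (J i : ℕ) : Function.Periodic (Z J i) (2 * π) := by
  unfold Z
  by_cases h : i < 2 * J
  · simp only [h, if_true]; exact X_periodic i
  · simp only [h, if_false]; exact Y_periodic J _

/-- The perturbed curve with parameter `δ`. -/
noncomputable def curve (n J : ℕ) (δ : ℝ) (t : ℝ) : EuclideanSpace ℝ (Fin n) :=
  WithLp.toLp 2 fun i => (if (i : ℕ) < 2 then 1 else δ) * Z J i t

lemma curve_contDiff (n J : ℕ) (δ : ℝ) : ContDiff ℝ ∞ (curve n J δ) := by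
  rw [contDiff_euclidean]
  intro i
  exact contDiff_const.mul (Z_contDiff J i)

lemma curve_periodic (n J : ℕ) (δ : ℝ) : Function.Periodic (curve n J δ) (2 * π) := by
  intro t
  unfold curve
  congr 1
  funext i
  rw [Z_periodic J i t]

lemma circle_contDiff (n m : ℕ) : ContDiff ℝ ∞ (circle n m) := by
  rw [contDiff_euclidean]
  intro i
  show ContDiff ℝ ∞ (fun t => if (i : ℕ) = 0 then cos (m * t) else if (i : ℕ) = 1 then
    sin (m * t) else 0)
  by_cases h : (i : ℕ) = 0
  · simp only [h, if_true]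
    fun_prop
  · by_cases h' : (i : ℕ) = 1
    · simp only [h', one_ne_zero, if_true, if_false]
      fun_prop
    · simp only [h, h', if_false]
      fun_prop

/-! ### Closeness -/

lemma periodic_iteratedDeriv {f : ℝ → ℝ} {c : ℝ} (h : Function.Periodic f c) (j : ℕ) :
    Function.Periodic (iteratedDeriv j f) c := by
  intro t
  have : (fun z => f (z + c)) = f := funext h
  have h2 := iteratedDeriv_comp_add_const (n := j) (f := f) c
  have h3 := congrFun h2 t
  rw [← h3, this]

lemma bounded_iteratedDeriv {f : ℝ → ℝ} (hf : ContDiff ℝ ∞ f) (h : Function.Periodic f (2 * π))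
    (j : ℕ) : ∃ C : ℝ, ∀ t, |iteratedDeriv j f t| ≤ C := by
  have hc : Continuous (iteratedDeriv j f) := hf.continuous_iteratedDeriv j (by exact_mod_cast le_top)
  have hp := periodic_iteratedDeriv h j
  obtain ⟨C, hC⟩ := (isCompact_Icc (a := (0:ℝ)) (b := 2 * π)).exists_bound_of_continuousOn
    hc.continuousOn
  refine ⟨C, fun t => ?_⟩
  obtain ⟨y, hy, hyt⟩ := hp.exists_mem_Ico₀ (by positivity) t
  rw [hyt]
  exact hC y ⟨hy.1, hy.2.le⟩

lemma curve_close (n J : ℕ) (hJ : 1 ≤ J) (r : ℕ) {ε : ℝ} (hε : 0 < ε) : ∃ δ : ℝ, 0 < δ ∧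
    ∀ j ≤ r, ∀ t : ℝ, ‖iteratedDeriv j (curve n J δ) t - iteratedDeriv j (circle n 1) t‖ < ε := by
  have hb : ∀ (i : Fin n) (j : ℕ), ∃ C : ℝ, ∀ t, |iteratedDeriv j (Z J i) t| ≤ C := fun i j =>
    bounded_iteratedDeriv (Z_contDiff J i) (Z_periodic J i) j
  choose C hC using hb
  set M : ℝ := ∑ j ∈ range (r + 1), ∑ i : Fin n, |C i j| with hM
  have hMn : 0 ≤ M := sum_nonneg fun j _ => sum_nonneg fun i _ => abs_nonneg _
  refine ⟨ε / (2 * (M + 1)), by positivity, ?_⟩
  set δ := ε / (2 * (M + 1)) with hδ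
  have hδ0 : 0 < δ := by positivity
  intro j hj t
  have hcoord : ∀ i : Fin n, |(iteratedDeriv j (curve n J δ) t
      - iteratedDeriv j (circle n 1) t) i| ≤ δ * |C i j| := by
    intro i
    have e1 : (iteratedDeriv j (curve n J δ) t - iteratedDeriv j (circle n 1) t) i =
        iteratedDeriv j (fun s => curve n J δ s i) t - iteratedDeriv j (fun s => circle n 1 s i) t := by
      rw [← iteratedDeriv_coord (curve_contDiff n J δ), ← iteratedDeriv_coord (circle_contDiff n 1)]
      rfl
    rw [e1]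
    by_cases h2 : (i : ℕ) < 2
    · have e2 : (fun s => curve n J δ s i) = fun s => circle n 1 s i := by
        funext s
        show (if (i : ℕ) < 2 then 1 else δ) * Z J i s = if (i : ℕ) = 0 then cos ((1:ℕ) * s)
          else if (i : ℕ) = 1 then sin ((1:ℕ) * s) else 0
        have hlt : (i : ℕ) < 2 * J := by omega
        have hZ : Z J i = X i := by simp [Z, hlt]
        have : (i : ℕ) = 0 ∨ (i : ℕ) = 1 := by omega
        rw [hZ]
        rcases this with h | h
        · simp [X, h]
        · simp [X, h]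
      rw [e2, sub_self, abs_zero]
      positivity
    · have e2 : (fun s => curve n J δ s i) = fun s => δ * Z J i s := by
        funext s
        show (if (i : ℕ) < 2 then 1 else δ) * Z J i s = _
        simp only [h2, if_false]
      have e3 : (fun s => circle n 1 s i) = fun _ => (0 : ℝ) := by
        funext s
        show (if (i : ℕ) = 0 then cos ((1:ℕ) * s)
          else if (i : ℕ) = 1 then sin ((1:ℕ) * s) else 0) = 0
        have h3 : (i : ℕ) ≠ 0 := by omega
        have h4 : (i : ℕ) ≠ 1 := by omega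
        simp [h3, h4]
      rw [e2, e3, iteratedDeriv_const_mul_field]
      have e4 : iteratedDeriv j (fun _ : ℝ => (0 : ℝ)) t = 0 := by
        simp
      rw [e4, sub_zero, abs_mul, abs_of_pos hδ0]
      exact mul_le_mul_of_nonneg_left ((hC i j t).trans (le_abs_self _)) hδ0.le
  have hsum : ‖iteratedDeriv j (curve n J δ) t - iteratedDeriv j (circle n 1) t‖ ≤
      ∑ i : Fin n, |(iteratedDeriv j (curve n J δ) t - iteratedDeriv j (circle n 1) t) i| := by
    set v := iteratedDeriv j (curve n J δ) t - iteratedDeriv j (circle n 1) t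
    rw [EuclideanSpace.norm_eq]
    refine Real.sqrt_le_iff.2 ⟨sum_nonneg fun i _ => abs_nonneg _, ?_⟩
    simp only [Real.norm_eq_abs]
    exact sum_sq_le_sq_sum_of_nonneg fun i _ => abs_nonneg _
  have hsum2 : ∑ i : Fin n, |(iteratedDeriv j (curve n J δ) t
      - iteratedDeriv j (circle n 1) t) i| ≤ δ * M := by
    calc _ ≤ ∑ i : Fin n, δ * |C i j| := sum_le_sum fun i _ => hcoord i
      _ = δ * ∑ i : Fin n, |C i j| := by rw [mul_sum]
      _ ≤ δ * M := by
        refine mul_le_mul_of_nonneg_left ?_ hδ0.le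
        exact single_le_sum (f := fun j => ∑ i : Fin n, |C i j|)
          (fun j _ => sum_nonneg fun i _ => abs_nonneg _) (mem_range.2 (by omega))
  calc _ ≤ δ * M := hsum.trans hsum2
    _ < ε := by
      rw [hδ, div_mul_eq_mul_div, div_lt_iff₀ (by positivity)]
      nlinarith

end Pool.Agent.K1H62.ND
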