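import Mathlib

/-!
Fenchel's theorem in the form: a closed `C¹` curve `T` on the unit sphere of an inner product
space with `∫ w T = 0` for some positive weight `w` has length at least `2π`.
-/

open Real Set MeasureTheory intervalIntegral InnerProductGeometry
open scoped Topology

namespace Pool.Agent.K1H62.ND

variable {E : Type*} [NormedAddCommGroup E] [InnerProductSpace ℝ E]

lemma norm_sub_eq_sin {u v : E} (hu : ‖u‖ = 1) (hv : ‖v‖ = 1) :
    ‖u - v‖ = 2 * sin (angle u v / 2) := by
  have h1 : ‖u - v‖ ^ 2 = (2 * sin (angle u v / 2)) ^ 2 := by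
    rw [norm_sub_sq_real, hu, hv, ← cos_angle_mul_norm_mul_norm, hu, hv]
    have h2 : cos (angle u v) = 1 - 2 * sin (angle u v / 2) ^ 2 := by
      have := cos_two_mul (angle u v / 2)
      rw [show 2 * (angle u v / 2) = angle u v by ring] at this
      rw [this, cos_sq']
      ring
    rw [h2]
    ring
  have h3 : 0 ≤ sin (angle u v / 2) := by
    apply sin_nonneg_of_nonneg_of_le_pi
    · have := angle_nonneg u v
      linarith
    · have := angle_le_pi u v
      have := pi_pos
      linarith
  exact (sq_eq_sq₀ (norm_nonneg _) (by positivity)).1 h1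

lemma angle_le_norm_sub {ε : ℝ} (hε : 0 < ε) : ∃ δ : ℝ, 0 < δ ∧ ∀ u v : E, ‖u‖ = 1 → ‖v‖ = 1 →
    ‖u - v‖ < δ → angle u v ≤ (1 + ε) * ‖u - v‖ := by
  refine ⟨min 1 (ε / (1 + ε)), by positivity, ?_⟩
  intro u v hu hv huv
  have hs := norm_sub_eq_sin hu hv
  set x := angle u v / 2 with hx
  have hx0 : 0 ≤ x := by
    have := angle_nonneg u v
    simp only [hx]; linarith
  have hxp : x ≤ π / 2 := by
    have := angle_le_pi u v
    simp only [hx]; linarith
  have hang : angle u v = 2 * x := by simp only [hx]; ring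
  have hj := mul_le_sin hx0 hxp
  have hxu : x ≤ ‖u - v‖ := by
    rw [hs]
    have hpi : π ≤ 4 := pi_le_four
    have hpp : 0 < π := pi_pos
    have h1 : x * 2 ≤ sin x * π := by
      have := mul_le_mul_of_nonneg_right hj hpp.le
      have e : 2 / π * x * π = x * 2 := by field_simp
      linarith
    have h2 : 0 ≤ sin x := sin_nonneg_of_nonneg_of_le_pi hx0 (by linarith)
    nlinarith
  have hx1 : x ≤ 1 := hxu.trans (huv.le.trans (min_le_left _ _))
  have hx2 : x ≤ ε / (1 + ε) := hxu.trans (huv.le.trans (min_le_right _ _))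
  rcases hx0.eq_or_lt with h0 | h0
  · rw [hang, ← h0]
    simp only [mul_zero]
    positivity
  have hsin : x - x ^ 3 / 4 < sin x := by
    have h6 := sin_gt_sub_cube h0
    have h7 : 0 < x ^ 3 := by positivity
    linarith
  rw [hang, hs]
  have hx3 : x * (1 + ε) ≤ ε := by
    rwa [le_div_iff₀ (by positivity)] at hx2
  have key : x ≤ (1 + ε) * (x - x ^ 3 / 4) := by
    have e : (1 + ε) * (x - x ^ 3 / 4) - x = x * (ε - (x * (1 + ε)) * x / 4) := by ring
    have h5 : (x * (1 + ε)) * x ≤ ε * 1 := by
      exact mul_le_mul hx3 hx1 hx0 hε.le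
    have : 0 ≤ x * (ε - (x * (1 + ε)) * x / 4) := mul_nonneg hx0 (by linarith)
    linarith
  nlinarith

lemma angle_le_integral_aux {T : ℝ → E} (hT : ContDiff ℝ 1 T) (hn : ∀ t, ‖T t‖ = 1) {a b : ℝ}
    (hab : a ≤ b) {ε : ℝ} (hε : 0 < ε) [CompleteSpace E] :
    angle (T a) (T b) ≤ (1 + ε) * ∫ t in a..b, ‖deriv T t‖ := by
  have hc : Continuous (deriv T) := hT.continuous_deriv le_rfl
  have hcn : Continuous (fun t => ‖deriv T t‖) := hc.norm
  obtain ⟨δ, hδ, hang⟩ := angle_le_norm_sub (E := E) hε
  set s : Set ℝ := {t | angle (T a) (T t) ≤ (1 + ε) * ∫ u in a..t, ‖deriv T u‖} with hs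
  have hne : ∀ t, T t ≠ 0 := fun t h => by
    have := hn t
    rw [h, norm_zero] at this
    exact zero_ne_one this
  have hcl : IsClosed s := by
    apply isClosed_le
    · have : (fun t => angle (T a) (T t)) = fun t => arccos (inner ℝ (T a) (T t)) := by
        funext t
        rw [InnerProductGeometry.angle, hn, hn]
        simp
      rw [this]
      exact continuous_arccos.comp (continuous_const.inner hT.continuous)
    · exact continuous_const.mul (continuous_primitive (fun _ _ => hcn.intervalIntegrable _ _) a)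
  have hsub : Icc a b ⊆ s := by
    apply (hcl.inter isClosed_Icc).Icc_subset_of_forall_exists_gt
    · simp only [hs, mem_ofPred_eq, integral_same, mul_zero]
      rw [angle_self (hne a)]
    · rintro x ⟨hxs, hxa, hxb⟩ y hy
      have hy' : x < y := hy
      have hcont : ContinuousAt T x := hT.continuous.continuousAt
      obtain ⟨η, hη, hηT⟩ := Metric.continuousAt_iff.1 hcont δ hδ
      set z := min y (x + η / 2) with hz
      have hxz : x < z := lt_min hy' (by linarith)
      have hzη : z ≤ x + η / 2 := min_le_right _ _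
      refine ⟨z, ?_, hxz, min_le_left _ _⟩
      have hTz : ‖T x - T z‖ < δ := by
        have : dist z x < η := by
          rw [Real.dist_eq, abs_of_pos (by linarith)]
          linarith
        have := hηT this
        rwa [dist_comm, dist_eq_norm] at this
      have h1 := hang (T x) (T z) (hn x) (hn z) hTz
      have h2 : ‖T x - T z‖ ≤ ∫ u in x..z, ‖deriv T u‖ := by
        have h3 : ∫ u in x..z, deriv T u = T z - T x :=
          integral_deriv_eq_sub (fun u _ => (hT.differentiable (by simp)) u)
            (hc.intervalIntegrable _ _)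
        rw [norm_sub_rev, ← h3]
        exact norm_integral_le_integral_norm hxz.le
      have h4 : ∫ u in a..z, ‖deriv T u‖ =
          (∫ u in a..x, ‖deriv T u‖) + ∫ u in x..z, ‖deriv T u‖ :=
        (integral_add_adjacent_intervals (hcn.intervalIntegrable _ _)
          (hcn.intervalIntegrable _ _)).symm
      have h5 : angle (T a) (T z) ≤ angle (T a) (T x) + angle (T x) (T z) :=
        angle_le_angle_add_angle _ _ _
      have h6 : angle (T a) (T x) ≤ (1 + ε) * ∫ u in a..x, ‖deriv T u‖ := hxs
      show angle (T a) (T z) ≤ (1 + ε) * ∫ u in a..z, ‖deriv T u‖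
      rw [h4, mul_add]
      have h7 : (1 + ε) * ‖T x - T z‖ ≤ (1 + ε) * ∫ u in x..z, ‖deriv T u‖ :=
        mul_le_mul_of_nonneg_left h2 (by positivity)
      linarith
  exact hsub ⟨hab, le_rfl⟩

lemma angle_le_integral {T : ℝ → E} (hT : ContDiff ℝ 1 T) (hn : ∀ t, ‖T t‖ = 1) {a b : ℝ}
    (hab : a ≤ b) [CompleteSpace E] : angle (T a) (T b) ≤ ∫ t in a..b, ‖deriv T t‖ := by
  have hI : 0 ≤ ∫ t in a..b, ‖deriv T t‖ :=
    intervalIntegral.integral_nonneg hab fun _ _ => norm_nonneg _
  apply le_of_forall_pos_le_add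
  intro ε hε
  have := angle_le_integral_aux hT hn hab
    (ε := ε / (1 + ∫ t in a..b, ‖deriv T t‖)) (by positivity)
  refine this.trans ?_
  rw [add_mul, one_mul]
  have h2 : ε / (1 + ∫ t in a..b, ‖deriv T t‖) * ∫ t in a..b, ‖deriv T t‖ ≤ ε := by
    rw [div_mul_eq_mul_div, div_le_iff₀ (by positivity)]
    nlinarith
  linarith

/-- **Fenchel's theorem** for the tangent indicatrix. -/
theorem fenchel [CompleteSpace E] {T : ℝ → E} (hT : ContDiff ℝ 1 T) (hn : ∀ t, ‖T t‖ = 1)
    {L : ℝ} (hL : 0 < L) (hper : T L = T 0) {w : ℝ → ℝ} (hw : Continuous w) (hw0 : ∀ t, 0 < w t)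
    (hint : ∫ t in (0:ℝ)..L, w t • T t = 0) : 2 * π ≤ ∫ t in (0:ℝ)..L, ‖deriv T t‖ := by
  by_contra hcon
  push Not at hcon
  have hc : Continuous (deriv T) := hT.continuous_deriv le_rfl
  have hcn : Continuous (fun t => ‖deriv T t‖) := hc.norm
  set ℓ := ∫ t in (0:ℝ)..L, ‖deriv T t‖ with hℓ
  have hℓ0 : 0 ≤ ℓ := intervalIntegral.integral_nonneg hL.le fun _ _ => norm_nonneg _
  set F : ℝ → ℝ := fun t => ∫ u in (0:ℝ)..t, ‖deriv T u‖ with hF
  have hFc : Continuous F := continuous_primitive (fun _ _ => hcn.intervalIntegrable _ _) 0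
  obtain ⟨t1, ht1, hFt1⟩ : ℓ / 2 ∈ F '' Icc 0 L := by
    apply intermediate_value_Icc hL.le hFc.continuousOn
    simp only [hF, integral_same]
    constructor
    · positivity
    · show ℓ / 2 ≤ ℓ
      linarith
  have hFt1' : ∫ u in (0:ℝ)..t1, ‖deriv T u‖ = ℓ / 2 := hFt1
  have hsecond : ∫ u in t1..L, ‖deriv T u‖ = ℓ / 2 := by
    have := integral_add_adjacent_intervals (a := (0:ℝ)) (b := t1) (c := L)
      (hcn.intervalIntegrable _ _) (hcn.intervalIntegrable _ _) (μ := volume)
    rw [hFt1', ← hℓ] at this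
    linarith
  have hpos : ∀ p x q : E, ‖p‖ = 1 → ‖x‖ = 1 → ‖q‖ = 1 → angle p x + angle x q ≤ ℓ / 2 →
      0 < inner ℝ x (p + q) := by
    intro p x q hp hx hq hpq
    rw [inner_add_right]
    have h1 : inner ℝ x p = cos (angle p x) := by
      rw [real_inner_comm, cos_angle, hp, hx]; simp
    have h2 : inner ℝ x q = cos (angle x q) := by
      rw [cos_angle, hq, hx]; simp
    rw [h1, h2]
    have h3 : angle p x < π - angle x q := by linarith
    have h4 := cos_lt_cos_of_nonneg_of_le_pi (angle_nonneg p x)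
      (by have := angle_nonneg x q; linarith) h3
    rw [cos_pi_sub] at h4
    linarith
  have hall : ∀ x ∈ Icc (0:ℝ) L, 0 < inner ℝ (T x) (T 0 + T t1) := by
    intro x hx
    rcases le_total x t1 with h | h
    · apply hpos _ _ _ (hn _) (hn _) (hn _)
      have h1 := angle_le_integral hT hn hx.1
      have h2 := angle_le_integral hT hn h
      have h3 := integral_add_adjacent_intervals (a := (0:ℝ)) (b := x) (c := t1)
        (hcn.intervalIntegrable _ _) (hcn.intervalIntegrable _ _) (μ := volume)
      linarith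
    · rw [add_comm]
      apply hpos _ _ _ (hn _) (hn _) (hn _)
      have h1 := angle_le_integral hT hn h
      have h2 := angle_le_integral hT hn hx.2
      rw [hper] at h2
      have h3 := integral_add_adjacent_intervals (a := t1) (b := x) (c := L)
        (hcn.intervalIntegrable _ _) (hcn.intervalIntegrable _ _) (μ := volume)
      linarith
  have hzero : ∫ t in (0:ℝ)..L, w t * inner ℝ (T t) (T 0 + T t1) = 0 := by
    have h1 : ∫ t in (0:ℝ)..L, inner ℝ (T 0 + T t1) (w t • T t) =
        inner ℝ (T 0 + T t1) (∫ t in (0:ℝ)..L, w t • T t) := by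
      have := (innerSL ℝ (T 0 + T t1)).intervalIntegral_comp_comm (μ := volume) (a := 0) (b := L)
        (f := fun t => w t • T t) ((hw.smul hT.continuous).intervalIntegrable _ _)
      exact this
    rw [hint, inner_zero_right] at h1
    refine Eq.trans ?_ h1
    congr 1
    funext t
    rw [inner_smul_right, real_inner_comm]
  have hgt : 0 < ∫ t in (0:ℝ)..L, w t * inner ℝ (T t) (T 0 + T t1) := by
    apply intervalIntegral_pos_of_pos_on
    · exact (hw.mul (hT.continuous.inner continuous_const)).intervalIntegrable _ _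
    · intro x hx
      exact mul_pos (hw0 x) (hall x ⟨hx.1.le, hx.2.le⟩)
    · exact hL
  linarith

end Pool.Agent.K1H62.ND
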