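import Pool.Agent.K1H62.ND.FrameDefs
import Pool.Agent.K1H62.ND.Fenchel

open Real InnerProductSpace Finset
open scoped ContDiff

namespace Pool.Agent.K1H62.ND

section

variable {n : ℕ} {γ : ℝ → EuclideanSpace ℝ (Fin n)}

/-- the derivatives -/
noncomputable def vd (γ : ℝ → EuclideanSpace ℝ (Fin n)) (t : ℝ) (j : Fin n) :
    EuclideanSpace ℝ (Fin n) := iteratedDeriv ((j : ℕ) + 1) γ t

/-- the orthogonalised derivatives -/
noncomputable def gs (γ : ℝ → EuclideanSpace ℝ (Fin n)) (t : ℝ) (j : Fin n) :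
    EuclideanSpace ℝ (Fin n) := gramSchmidt ℝ (vd γ t) j

lemma frenet_eq (t : ℝ) (i : Fin n) : frenet n γ t i = ‖gs γ t i‖⁻¹ • gs γ t i := rfl

lemma contDiff_iteratedDeriv (hγ : ContDiff ℝ ∞ γ) (j : ℕ) : ContDiff ℝ ∞ (iteratedDeriv j γ) := by
  induction j with
  | zero => simpa using hγ
  | succ j ih =>
    rw [iteratedDeriv_succ]
    exact ((contDiff_infty_iff_deriv (𝕜 := ℝ)).1 ih).2

lemma vd_contDiff (hγ : ContDiff ℝ ∞ γ) (j : Fin n) : ContDiff ℝ ∞ (fun t => vd γ t j) :=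
  contDiff_iteratedDeriv hγ _

lemma vd_hasDerivAt (hγ : ContDiff ℝ ∞ γ) (j : ℕ) (h1 : j < n) (h2 : j + 1 < n) (t : ℝ) :
    HasDerivAt (fun t => vd γ t ⟨j, h1⟩) (vd γ t ⟨j + 1, h2⟩) t := by
  have h := ((contDiff_iteratedDeriv hγ (j + 1)).differentiable (by simp) t).hasDerivAt
  have h3 : deriv (iteratedDeriv (j + 1) γ) t = iteratedDeriv (j + 1 + 1) γ t := by
    rw [iteratedDeriv_succ (n := j + 1)]
  rw [h3] at h
  exact h

lemma gs_ne_zero (hnd : Nondegenerate n γ) (t : ℝ) (i : Fin n) : gs γ t i ≠ 0 :=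
  gramSchmidt_ne_zero i (hnd t)

lemma gs_contDiff (hγ : ContDiff ℝ ∞ γ) (hnd : Nondegenerate n γ) (i : Fin n) :
    ContDiff ℝ ∞ (fun t => gs γ t i) := by
  induction i using WellFoundedLT.induction with
  | ind i ih =>
    have h1 : (fun t => gs γ t i) = fun t => vd γ t i - ∑ k ∈ Iio i,
        (inner ℝ (gs γ t k) (vd γ t i) / (‖gs γ t k‖ ^ 2)) • gs γ t k := by
      funext t
      have := gramSchmidt_def'' ℝ (vd γ t) i
      simp only [gs]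
      rw [eq_sub_iff_add_eq]
      exact this.symm
    rw [h1]
    apply (vd_contDiff hγ i).sub
    apply ContDiff.sum
    intro k hk
    have hk' := ih k (mem_Iio.1 hk)
    have hq : ContDiff ℝ ∞ (fun t => inner ℝ (gs γ t k) (vd γ t i) / (‖gs γ t k‖ ^ 2)) := by
      apply ContDiff.div (hk'.inner ℝ (vd_contDiff hγ i)) (hk'.norm_sq ℝ)
      intro t
      have := gs_ne_zero hnd t k
      positivity
    exact hq.smul hk'

lemma frenet_contDiff (hγ : ContDiff ℝ ∞ γ) (hnd : Nondegenerate n γ) (i : Fin n) :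
    ContDiff ℝ ∞ (fun t => frenet n γ t i) := by
  simp only [frenet_eq]
  have h := gs_contDiff hγ hnd i
  exact ((h.norm ℝ (fun t => gs_ne_zero hnd t i)).inv
    (fun t => norm_ne_zero_iff.2 (gs_ne_zero hnd t i))).smul h

lemma frenet_norm (hnd : Nondegenerate n γ) (t : ℝ) (i : Fin n) : ‖frenet n γ t i‖ = 1 :=
  gramSchmidtNormed_unit_length i (hnd t)

lemma frenet_orth (hnd : Nondegenerate n γ) (t : ℝ) {i j : Fin n} (hij : i ≠ j) :
    inner ℝ (frenet n γ t i) (frenet n γ t j) = 0 :=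
  (gramSchmidtNormed_orthonormal (hnd t)).2 hij

lemma deriv_frenet_self (hγ : ContDiff ℝ ∞ γ) (hnd : Nondegenerate n γ) (t : ℝ) (i : Fin n) :
    inner ℝ (deriv (fun s => frenet n γ s i) t) (frenet n γ t i) = 0 := by
  have h := ((frenet_contDiff hγ hnd i).differentiable (by simp) t).hasDerivAt
  have h2 := h.inner ℝ h
  have h3 : (fun s => inner ℝ (frenet n γ s i) (frenet n γ s i)) = fun _ => (1 : ℝ) := by
    funext s
    rw [real_inner_self_eq_norm_sq, frenet_norm hnd, one_pow]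
  rw [h3] at h2
  have h4 := h2.unique (hasDerivAt_const t (1 : ℝ))
  rw [real_inner_comm (deriv _ t)] at h4
  linarith

variable (hn : 4 ≤ n)

lemma gs_zero (t : ℝ) (h0 : 0 < n) : gs γ t ⟨0, h0⟩ = vd γ t ⟨0, h0⟩ := by
  simp only [gs]
  rw [gramSchmidt_def]
  have : Iio (⟨0, h0⟩ : Fin n) = ∅ := by
    ext k
    simp [Fin.lt_def]
  rw [this]
  simp

lemma gs_one (t : ℝ) (h0 : 0 < n) (h1 : 1 < n) : gs γ t ⟨1, h1⟩ = vd γ t ⟨1, h1⟩ -
    (inner ℝ (vd γ t ⟨0, h0⟩) (vd γ t ⟨1, h1⟩) / ‖vd γ t ⟨0, h0⟩‖ ^ 2) • vd γ t ⟨0, h0⟩ := by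
  have := gramSchmidt_def'' ℝ (vd γ t) ⟨1, h1⟩
  have h2 : Iio (⟨1, h1⟩ : Fin n) = {⟨0, h0⟩} := by
    ext k
    simp [Fin.lt_def, Fin.ext_iff]
  rw [h2, sum_singleton] at this
  rw [← gs_zero t h0, eq_sub_iff_add_eq]
  exact this.symm

lemma norm_deriv_tangent (hγ : ContDiff ℝ ∞ γ) (hnd : Nondegenerate n γ) (t : ℝ) (h0 : 0 < n)
    (h1 : 1 < n) : ‖deriv (fun s => frenet n γ s ⟨0, h0⟩) t‖ =
      |inner ℝ (deriv (fun s => frenet n γ s ⟨0, h0⟩) t) (frenet n γ t ⟨1, h1⟩)| := by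
  -- `e_0' = α e_0 + β e_1`
  have hg : ContDiff ℝ ∞ (fun s => ‖gs γ s ⟨0, h0⟩‖⁻¹) :=
    (((gs_contDiff hγ hnd ⟨0, h0⟩).norm ℝ (fun s => gs_ne_zero hnd s _)).inv
      (fun s => norm_ne_zero_iff.2 (gs_ne_zero hnd s _)))
  have hgd := (hg.differentiable (by simp) t).hasDerivAt
  set g' := deriv (fun s => ‖gs γ s ⟨0, h0⟩‖⁻¹) t
  have hd : HasDerivAt (fun s => frenet n γ s ⟨0, h0⟩)
      (‖gs γ t ⟨0, h0⟩‖⁻¹ • vd γ t ⟨1, h1⟩ + g' • vd γ t ⟨0, h0⟩) t := by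
    have h2 := hgd.smul (vd_hasDerivAt hγ 0 h0 h1 t)
    have h3 : (fun s => frenet n γ s ⟨0, h0⟩) =
        fun s => ‖gs γ s ⟨0, h0⟩‖⁻¹ • vd γ s ⟨0, h0⟩ := by
      funext s
      rw [frenet_eq, gs_zero]
    rw [h3]
    exact h2
  have hv0 : vd γ t ⟨0, h0⟩ = ‖gs γ t ⟨0, h0⟩‖ • frenet n γ t ⟨0, h0⟩ := by
    rw [frenet_eq, smul_smul, mul_inv_cancel₀ (norm_ne_zero_iff.2 (gs_ne_zero hnd t _)), one_smul,
      gs_zero]
  have hv1 : vd γ t ⟨1, h1⟩ = ‖gs γ t ⟨1, h1⟩‖ • frenet n γ t ⟨1, h1⟩ +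
      (inner ℝ (vd γ t ⟨0, h0⟩) (vd γ t ⟨1, h1⟩) / ‖vd γ t ⟨0, h0⟩‖ ^ 2) • vd γ t ⟨0, h0⟩ := by
    rw [frenet_eq, smul_smul, mul_inv_cancel₀ (norm_ne_zero_iff.2 (gs_ne_zero hnd t _)), one_smul,
      gs_one t h0 h1, sub_add_cancel]
  obtain ⟨α, β, hαβ⟩ : ∃ α β : ℝ, deriv (fun s => frenet n γ s ⟨0, h0⟩) t =
      α • frenet n γ t ⟨0, h0⟩ + β • frenet n γ t ⟨1, h1⟩ := by
    set c := inner ℝ (vd γ t ⟨0, h0⟩) (vd γ t ⟨1, h1⟩) / ‖vd γ t ⟨0, h0⟩‖ ^ 2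
    set r := ‖gs γ t ⟨0, h0⟩‖
    set r1 := ‖gs γ t ⟨1, h1⟩‖
    refine ⟨r⁻¹ * (c * r) + g' * r, r⁻¹ * r1, ?_⟩
    rw [hd.deriv, hv1, hv0]
    module
  have hself := deriv_frenet_self hγ hnd t ⟨0, h0⟩
  have horth : inner ℝ (frenet n γ t ⟨1, h1⟩) (frenet n γ t ⟨0, h0⟩) = 0 :=
    frenet_orth hnd t (by simp [Fin.ext_iff])
  have hnn0 : inner ℝ (frenet n γ t ⟨0, h0⟩) (frenet n γ t ⟨0, h0⟩) = 1 := by
    rw [real_inner_self_eq_norm_sq, frenet_norm hnd, one_pow]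
  have hnn1 : inner ℝ (frenet n γ t ⟨1, h1⟩) (frenet n γ t ⟨1, h1⟩) = 1 := by
    rw [real_inner_self_eq_norm_sq, frenet_norm hnd, one_pow]
  rw [hαβ, inner_add_left, inner_smul_left, inner_smul_left, horth, hnn0] at hself
  have hα : α = 0 := by simpa using hself
  rw [hαβ, hα, zero_smul, zero_add, inner_smul_left, hnn1, norm_smul, frenet_norm hnd]
  simp

lemma curvature_two_ne_zero (hγ : ContDiff ℝ ∞ γ) (hnd : Nondegenerate n γ) (t : ℝ) (h0 : 0 < n)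
    (h1 : 1 < n) (h2 : 2 < n) :
    inner ℝ (deriv (fun s => frenet n γ s ⟨1, h1⟩) t) (frenet n γ t ⟨2, h2⟩) ≠ 0 := by
  have hg : ContDiff ℝ ∞ (fun s => ‖gs γ s ⟨1, h1⟩‖⁻¹) :=
    (((gs_contDiff hγ hnd ⟨1, h1⟩).norm ℝ (fun s => gs_ne_zero hnd s _)).inv
      (fun s => norm_ne_zero_iff.2 (gs_ne_zero hnd s _)))
  have hgd := (hg.differentiable (by simp) t).hasDerivAt
  have hvne : ∀ s, vd γ s ⟨0, h0⟩ ≠ 0 := fun s => by
    rw [← gs_zero s h0]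
    exact gs_ne_zero hnd s _
  have hc : ContDiff ℝ ∞ (fun s => inner ℝ (vd γ s ⟨0, h0⟩) (vd γ s ⟨1, h1⟩) /
      ‖vd γ s ⟨0, h0⟩‖ ^ 2) := by
    apply ContDiff.div ((vd_contDiff hγ _).inner ℝ (vd_contDiff hγ _)) ((vd_contDiff hγ _).norm_sq ℝ)
    intro s
    have := hvne s
    positivity
  have hcd := (hc.differentiable (by simp) t).hasDerivAt
  set c' := deriv (fun s => inner ℝ (vd γ s ⟨0, h0⟩) (vd γ s ⟨1, h1⟩) /
      ‖vd γ s ⟨0, h0⟩‖ ^ 2) t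
  set g' := deriv (fun s => ‖gs γ s ⟨1, h1⟩‖⁻¹) t
  set c := inner ℝ (vd γ t ⟨0, h0⟩) (vd γ t ⟨1, h1⟩) / ‖vd γ t ⟨0, h0⟩‖ ^ 2 with hcdef
  have hb : HasDerivAt (fun s => gs γ s ⟨1, h1⟩)
      (vd γ t ⟨2, h2⟩ - (c • vd γ t ⟨1, h1⟩ + c' • vd γ t ⟨0, h0⟩)) t := by
    have e : (fun s => gs γ s ⟨1, h1⟩) = fun s => vd γ s ⟨1, h1⟩ -
      (inner ℝ (vd γ s ⟨0, h0⟩) (vd γ s ⟨1, h1⟩) / ‖vd γ s ⟨0, h0⟩‖ ^ 2) • vd γ s ⟨0, h0⟩ := by
      funext s
      exact gs_one s h0 h1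
    rw [e]
    exact (vd_hasDerivAt hγ 1 h1 h2 t).sub (hcd.smul (vd_hasDerivAt hγ 0 h0 h1 t))
  have hd : HasDerivAt (fun s => frenet n γ s ⟨1, h1⟩)
      (‖gs γ t ⟨1, h1⟩‖⁻¹ • (vd γ t ⟨2, h2⟩ - (c • vd γ t ⟨1, h1⟩ + c' • vd γ t ⟨0, h0⟩)) +
        g' • gs γ t ⟨1, h1⟩) t := by
    have h3 := hgd.smul hb
    exact h3
  have o0 : inner ℝ (vd γ t ⟨0, h0⟩) (frenet n γ t ⟨2, h2⟩) = 0 := by
    rw [real_inner_comm, frenet_eq, inner_smul_left]
    have : inner ℝ (gs γ t ⟨2, h2⟩) (vd γ t ⟨0, h0⟩) = 0 :=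
      gramSchmidt_inv_triangular ℝ (vd γ t) (by simp [Fin.lt_def])
    rw [this, mul_zero]
  have o1 : inner ℝ (vd γ t ⟨1, h1⟩) (frenet n γ t ⟨2, h2⟩) = 0 := by
    rw [real_inner_comm, frenet_eq, inner_smul_left]
    have : inner ℝ (gs γ t ⟨2, h2⟩) (vd γ t ⟨1, h1⟩) = 0 :=
      gramSchmidt_inv_triangular ℝ (vd γ t) (by simp [Fin.lt_def])
    rw [this, mul_zero]
  have og : inner ℝ (gs γ t ⟨1, h1⟩) (frenet n γ t ⟨2, h2⟩) = 0 := by
    rw [gs_one t h0 h1, inner_sub_left, inner_smul_left, o0, o1]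
    simp
  have o2 : inner ℝ (vd γ t ⟨2, h2⟩) (frenet n γ t ⟨2, h2⟩) = ‖gs γ t ⟨2, h2⟩‖ := by
    have hdef := gramSchmidt_def'' ℝ (vd γ t) ⟨2, h2⟩
    have hz : ∀ k ∈ Iio (⟨2, h2⟩ : Fin n), inner ℝ (gs γ t ⟨2, h2⟩) (gs γ t k) = 0 := by
      intro k hk
      exact gramSchmidt_orthogonal ℝ (vd γ t) (mem_Iio.1 hk).ne'
    have hin : inner ℝ (gs γ t ⟨2, h2⟩) (vd γ t ⟨2, h2⟩) = ‖gs γ t ⟨2, h2⟩‖ ^ 2 := by
      have e : vd γ t ⟨2, h2⟩ = gs γ t ⟨2, h2⟩ + ∑ i ∈ Iio (⟨2, h2⟩ : Fin n),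
          (inner ℝ (gs γ t i) (vd γ t ⟨2, h2⟩) / (‖gs γ t i‖) ^ 2) • gs γ t i := hdef
      rw [e, inner_add_right, inner_sum]
      rw [sum_eq_zero]
      · rw [add_zero, real_inner_self_eq_norm_sq]
      · intro k hk
        rw [inner_smul_right, hz k hk, mul_zero]
    rw [real_inner_comm, frenet_eq, inner_smul_left, hin]
    have hne := norm_ne_zero_iff.2 (gs_ne_zero hnd t (⟨2, h2⟩ : Fin n))
    simp only [conj_trivial]
    field_simp
  rw [hd.deriv, inner_add_left, inner_smul_left, inner_smul_left, inner_sub_left, inner_add_left,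
    inner_smul_left, inner_smul_left, o0, o1, og, o2]
  have hne1 := norm_ne_zero_iff.2 (gs_ne_zero hnd t (⟨1, h1⟩ : Fin n))
  have hne2 := norm_ne_zero_iff.2 (gs_ne_zero hnd t (⟨2, h2⟩ : Fin n))
  simp only [conj_trivial, mul_zero, add_zero, sub_zero]
  positivity

/-- The Frenet frame of a nondegenerate closed curve in `ℝ^n`, `n ≥ 3`, has length `> 2π`. -/
theorem frameLength_gt (h3 : 3 ≤ n) (hγ : IsClosedCurve n γ) (hnd : Nondegenerate n γ) :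
    2 * π < frameLength n γ := by
  obtain ⟨hs, hper⟩ := hγ
  have h0 : 0 < n := by omega
  have h1 : 1 < n := by omega
  have h2 : 2 < n := by omega
  have hdne : ∀ t, deriv γ t ≠ 0 := by
    intro t
    have h := (hnd t).ne_zero ⟨0, h0⟩
    simpa using h
  have hT1 : ContDiff ℝ 1 (fun t => frenet n γ t ⟨0, h0⟩) :=
    (frenet_contDiff hs hnd _).of_le (by exact_mod_cast le_top)
  have hvd0 : ∀ t, vd γ t ⟨0, h0⟩ = deriv γ t := by
    intro t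
    simp [vd]
  have hT : ∀ t, frenet n γ t ⟨0, h0⟩ = ‖deriv γ t‖⁻¹ • deriv γ t := by
    intro t
    rw [frenet_eq, gs_zero, hvd0]
  have hdper : deriv γ (2 * π) = deriv γ 0 := by
    have e : (fun z => γ (z + 2 * π)) = γ := funext hper
    have h := deriv_comp_add_const (f := γ) (2 * π) 0
    rw [e, zero_add] at h
    exact h.symm
  have hwc : Continuous (fun t => ‖deriv γ t‖) :=
    (hs.continuous_deriv (by exact_mod_cast le_top)).norm
  have hfen := fenchel (T := fun t => frenet n γ t ⟨0, h0⟩) hT1 (fun t => frenet_norm hnd t _)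
    (L := 2 * π) (by positivity) (by simp only [hT, hdper]) (w := fun t => ‖deriv γ t‖) hwc
    (fun t => norm_pos_iff.2 (hdne t)) (by
      have e : (fun t => ‖deriv γ t‖ • frenet n γ t ⟨0, h0⟩) = deriv γ := by
        funext t
        rw [hT, smul_smul, mul_inv_cancel₀ (norm_ne_zero_iff.2 (hdne t)), one_smul]
      simp only [e]
      rw [intervalIntegral.integral_deriv_eq_sub (fun u _ => hs.differentiable (by simp) u)
        ((hs.continuous_deriv (by exact_mod_cast le_top)).intervalIntegrable _ _)]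
      have := hper 0
      rw [zero_add] at this
      rw [this, sub_self])
  refine lt_of_le_of_lt hfen ?_
  -- the integrand
  set a : Fin (n - 1) → ℝ → ℝ := fun i t =>
    inner ℝ (deriv (fun s => frenet n γ s ⟨i, lt_of_lt_of_le i.2 (Nat.sub_le n 1)⟩) t)
      (frenet n γ t ⟨i + 1, Nat.add_lt_of_lt_sub i.2⟩) with ha
  have hac : ∀ i, Continuous (a i) := by
    intro i
    apply Continuous.inner
    · exact (frenet_contDiff hs hnd _).continuous_deriv (by exact_mod_cast le_top)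
    · exact (frenet_contDiff hs hnd _).continuous
  have hint : (fun t => √(∑ i : Fin (n - 1), curvature n γ i t ^ 2) * ‖deriv γ t‖) =
      fun t => √(∑ i : Fin (n - 1), a i t ^ 2) := by
    funext t
    have hp : 0 < ‖deriv γ t‖ := norm_pos_iff.2 (hdne t)
    have e : ∑ i : Fin (n - 1), a i t ^ 2 =
        (∑ i : Fin (n - 1), curvature n γ i t ^ 2) * ‖deriv γ t‖ ^ 2 := by
      rw [sum_mul]
      refine sum_congr rfl fun i _ => ?_
      have : a i t = curvature n γ i t * ‖deriv γ t‖ := by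
        simp only [ha, curvature]
        field_simp
      rw [this]
      ring
    rw [e, Real.sqrt_mul (sum_nonneg fun i _ => sq_nonneg _), Real.sqrt_sq hp.le]
  unfold frameLength
  rw [hint]
  have hlt : ∀ t, ‖deriv (fun s => frenet n γ s ⟨0, h0⟩) t‖ < √(∑ i : Fin (n - 1), a i t ^ 2) := by
    intro t
    rw [norm_deriv_tangent hs hnd t h0 h1]
    rw [← Real.sqrt_sq_eq_abs]
    apply Real.sqrt_lt_sqrt (sq_nonneg _)
    have hi0 : (0 : ℕ) < n - 1 := by omega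
    have hi1 : (1 : ℕ) < n - 1 := by omega
    have hne : (⟨0, hi0⟩ : Fin (n - 1)) ≠ ⟨1, hi1⟩ := by simp [Fin.ext_iff]
    have hle : ∑ i ∈ ({⟨0, hi0⟩, ⟨1, hi1⟩} : Finset (Fin (n - 1))), a i t ^ 2 ≤
        ∑ i : Fin (n - 1), a i t ^ 2 :=
      sum_le_sum_of_subset_of_nonneg (subset_univ _) fun i _ _ => sq_nonneg _
    rw [sum_pair hne] at hle
    have hpos : 0 < a ⟨1, hi1⟩ t ^ 2 := by
      have : a ⟨1, hi1⟩ t ≠ 0 := curvature_two_ne_zero hs hnd t h0 h1 h2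
      positivity
    have : inner ℝ (deriv (fun s => frenet n γ s ⟨0, h0⟩) t) (frenet n γ t ⟨1, h1⟩) =
        a ⟨0, hi0⟩ t := rfl
    rw [this]
    linarith
  apply intervalIntegral.integral_lt_integral_of_continuousOn_of_le_of_exists_lt (by positivity)
  · exact (hT1.continuous_deriv le_rfl).norm.continuousOn
  · exact (Real.continuous_sqrt.comp (continuous_finsetSum _ fun i _ =>
      (hac i).pow 2)).continuousOn
  · exact fun t _ => (hlt t).le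
  · exact ⟨0, ⟨le_rfl, by positivity⟩, hlt 0⟩

end

end Pool.Agent.K1H62.ND
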