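import Pool.Agent.K1H62.ND.Defs

/-!
Frenet frames, curvatures and the length of the frame.
-/

open Real
open scoped ContDiff

namespace Pool.Agent.K1H62.ND

/-- The Frenet frame `(e_1(t), …, e_n(t))` (indexed by `Fin n`, so `frenet n γ t 0 = e_1(t)`),
obtained by the Gram-Schmidt process from the first `n` derivatives of `γ` at `t`. -/
noncomputable def frenet (n : ℕ) (γ : ℝ → EuclideanSpace ℝ (Fin n)) (t : ℝ) (i : Fin n) :
    EuclideanSpace ℝ (Fin n) :=
  InnerProductSpace.gramSchmidtNormed ℝ (fun j : Fin n => iteratedDeriv ((j : ℕ) + 1) γ t) i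

/-- The curvatures `κ_1, …, κ_{n-1}` (indexed by `Fin (n-1)`, so `curvature n γ 0 = κ_1`):
`κ_i = ⟨de_i/ds, e_{i+1}⟩`, where `d/ds = |γ'|⁻¹ d/dt` is the derivative by arc length. -/
noncomputable def curvature (n : ℕ) (γ : ℝ → EuclideanSpace ℝ (Fin n)) (i : Fin (n - 1)) (t : ℝ) :
    ℝ :=
  inner ℝ (deriv (fun s => frenet n γ s ⟨i, lt_of_lt_of_le i.2 (Nat.sub_le n 1)⟩) t)
    (frenet n γ t ⟨i + 1, Nat.add_lt_of_lt_sub i.2⟩) / ‖deriv γ t‖

/-- The length `L(E) = ∫ (κ_1² + … + κ_{n-1}²)^{1/2} ds` of the Frenet frame of a closed curve. -/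
noncomputable def frameLength (n : ℕ) (γ : ℝ → EuclideanSpace ℝ (Fin n)) : ℝ :=
  ∫ t in (0 : ℝ)..(2 * π), √(∑ i : Fin (n - 1), curvature n γ i t ^ 2) * ‖deriv γ t‖

/-- `μ(n)`: the least `m ≥ 1` such that every `C^∞`-neighbourhood of the `m` times traversed circle
`c_m` contains a nondegenerate closed curve in `ℝ^n`. -/
noncomputable def mu (n : ℕ) : ℕ := sInf {m : ℕ | 1 ≤ m ∧ Perturbable n m}

end Pool.Agent.K1H62.ND
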