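import Pool.Agent.K1H62.ND.Curve

open Real Finset
open scoped ContDiff

namespace Pool.Agent.K1H62.ND

lemma linInd_of {n : ℕ} (v : Fin n → EuclideanSpace ℝ (Fin n))
    (h : ∀ c : Fin n → ℝ, (∀ j, ∑ i, c i * (v j) i = 0) → c = 0) : LinearIndependent ℝ v := by
  apply LinearIndependent.of_comp (WithLp.linearEquiv 2 ℝ (Fin n → ℝ)).toLinearMap
  set M : Matrix (Fin n) (Fin n) ℝ := Matrix.of fun j i => (v j) i with hM
  have hdet : M.det ≠ 0 := by
    intro h0
    obtain ⟨c, hc, hc0⟩ := Matrix.exists_mulVec_eq_zero_iff.2 h0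
    apply hc
    apply h
    intro j
    have := congrFun hc0 j
    simp only [Matrix.mulVec, dotProduct, hM, Matrix.of_apply, Pi.zero_apply] at this
    rw [← this]
    exact sum_congr rfl fun i _ => mul_comm _ _
  have hu : IsUnit M := (Matrix.isUnit_iff_isUnit_det M).2 (isUnit_iff_ne_zero.2 hdet)
  have := Matrix.linearIndependent_rows_iff_isUnit.2 hu
  exact this

lemma osc_pair (k j : ℕ) (a b t : ℝ) :
    a * iteratedDeriv j (X (2 * k)) t + b * iteratedDeriv j (X (2 * k + 1)) t =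
      iteratedDeriv j (osc ((k : ℝ) + 1) a b) t := by
  have h1 : osc ((k : ℝ) + 1) a b = (fun s => a * X (2 * k) s) + fun s => b * X (2 * k + 1) s := by
    funext s
    simp only [Pi.add_apply, X_even, X_odd, osc]
  rw [h1, iteratedDeriv_add, iteratedDeriv_const_mul_field, iteratedDeriv_const_mul_field]
  · exact ((contDiff_const.mul (X_contDiff (2 * k))).of_le (by exact_mod_cast le_top)).contDiffAt
  · exact ((contDiff_const.mul (X_contDiff (2 * k + 1))).of_le
      (by exact_mod_cast le_top)).contDiffAt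

lemma sum_range_two_mul (J : ℕ) (g : ℕ → ℝ) :
    ∑ i ∈ range (2 * J), g i = ∑ k ∈ range J, (g (2 * k) + g (2 * k + 1)) := by
  induction J with
  | zero => simp
  | succ J ih =>
    rw [sum_range_succ, ← ih, show 2 * (J + 1) = 2 * J + 1 + 1 from by ring, sum_range_succ,
      sum_range_succ]
    ring

lemma sum_modes (J j : ℕ) (d : ℕ → ℝ) (t : ℝ) :
    ∑ i ∈ range (2 * J), d i * iteratedDeriv j (X i) t =
      ∑ k ∈ range J, iteratedDeriv j (osc ((k : ℝ) + 1) (d (2 * k)) (d (2 * k + 1))) t := by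
  rw [sum_range_two_mul]
  exact sum_congr rfl fun k _ => osc_pair k j _ _ t

lemma even_core (J : ℕ) (d : ℕ → ℝ) (t : ℝ)
    (h : ∀ j < 2 * J, ∑ i ∈ range (2 * J), d i * iteratedDeriv (j + 1) (X i) t = 0) :
    ∀ i < 2 * J, d i = 0 := by
  have h' : ∀ j < 2 * J, ∑ k ∈ range J,
      iteratedDeriv (j + 1) (osc ((k : ℝ) + 1) (d (2 * k)) (d (2 * k + 1))) t = 0 := by
    intro j hj
    rw [← sum_modes]
    exact h j hj
  have := modes_eq_zero J (fun k => d (2 * k)) (fun k => d (2 * k + 1)) t h'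
  intro i hi
  have h2 := this (i / 2) (by omega)
  rcases Nat.even_or_odd' i with ⟨k, hk | hk⟩
  · subst hk
    have : 2 * k / 2 = k := by omega
    rw [this] at h2
    exact h2.1
  · subst hk
    have : (2 * k + 1) / 2 = k := by omega
    rw [this] at h2
    exact h2.2

lemma P_ne_zero (J m : ℕ) (hm : J < m) : P J (m : ℝ) ≠ 0 :=
  modePoly_eval_ne_zero _ _ fun k hk => by
    have := mem_range.1 hk
    omega

/-- the triple as a sum of three modes -/
lemma triple_eq (J j : ℕ) (a b c t : ℝ) :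
    a * iteratedDeriv j (Y J 0) t + b * iteratedDeriv j (Y J 1) t + c * iteratedDeriv j (Y J 2) t =
      iteratedDeriv j (osc ((J : ℝ) + 1) (-2 * b / (((J : ℝ) + 1) * P J ((J : ℝ) + 1)))
        (4 * a / (((J : ℝ) + 1) * P J ((J : ℝ) + 1)))) t +
      iteratedDeriv j (osc (2 * ((J : ℝ) + 1)) 0
        (c / (2 * ((J : ℝ) + 1) * P J (2 * ((J : ℝ) + 1))))) t +
      iteratedDeriv j (osc (3 * ((J : ℝ) + 1))
        (b / (3 * ((J : ℝ) + 1) * P J (3 * ((J : ℝ) + 1))))
        (-a / (3 * ((J : ℝ) + 1) * P J (3 * ((J : ℝ) + 1))))) t := by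
  have hY : ∀ i, ContDiffAt ℝ j (Y J i) t := fun i =>
    ((Y_contDiff J i).of_le (by exact_mod_cast le_top)).contDiffAt
  have hO : ∀ m A B, ContDiffAt ℝ j (osc m A B) t := fun m A B => (osc_contDiff m A B j).contDiffAt
  rw [← iteratedDeriv_const_mul_field a, ← iteratedDeriv_const_mul_field b,
    ← iteratedDeriv_const_mul_field c]
  rw [← iteratedDeriv_fun_add (contDiffAt_const.mul (hY 0)) (contDiffAt_const.mul (hY 1)),
    ← iteratedDeriv_fun_add ((contDiffAt_const.mul (hY 0)).add (contDiffAt_const.mul (hY 1)))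
      (contDiffAt_const.mul (hY 2)),
    ← iteratedDeriv_fun_add (hO _ _ _) (hO _ _ _),
    ← iteratedDeriv_fun_add ((hO _ _ _).add (hO _ _ _)) (hO _ _ _)]
  congr 1
  funext s
  have y0 : Y J 0 s = 4 / (((J : ℝ) + 1) * P J ((J : ℝ) + 1)) * sin (((J : ℝ) + 1) * s)
      - 1 / (3 * ((J : ℝ) + 1) * P J (3 * ((J : ℝ) + 1))) * sin (3 * ((J : ℝ) + 1) * s) := by
    simp only [Y, if_true]
  have y1 : Y J 1 s = -2 / (((J : ℝ) + 1) * P J ((J : ℝ) + 1)) * cos (((J : ℝ) + 1) * s)
      + 1 / (3 * ((J : ℝ) + 1) * P J (3 * ((J : ℝ) + 1))) * cos (3 * ((J : ℝ) + 1) * s) := by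
    simp only [Y, one_ne_zero, if_true, if_false]
  have y2 : Y J 2 s = 1 / (2 * ((J : ℝ) + 1) * P J (2 * ((J : ℝ) + 1)))
      * sin (2 * ((J : ℝ) + 1) * s) := by
    have h2 : ¬ ((2 : ℕ) = 0) := by norm_num
    have h3 : ¬ ((2 : ℕ) = 1) := by norm_num
    simp only [Y, h2, h3, if_false]
  rw [y0, y1, y2]
  unfold osc
  generalize P J ((J : ℝ) + 1) = p1
  generalize P J (2 * ((J : ℝ) + 1)) = p2
  generalize P J (3 * ((J : ℝ) + 1)) = p3
  generalize ((J : ℝ) + 1) = q
  ring

lemma odd_core (J : ℕ) (d : ℕ → ℝ) (a b c t : ℝ)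
    (h : ∀ j < 2 * J + 3, ∑ i ∈ range (2 * J), d i * iteratedDeriv (j + 1) (X i) t +
      (a * iteratedDeriv (j + 1) (Y J 0) t + b * iteratedDeriv (j + 1) (Y J 1) t +
        c * iteratedDeriv (j + 1) (Y J 2) t) = 0) :
    (∀ i < 2 * J, d i = 0) ∧ a = 0 ∧ b = 0 ∧ c = 0 := by
  set q : ℝ := (J : ℝ) + 1 with hq
  have hq0 : q ≠ 0 := by positivity
  have hP1 : P J q ≠ 0 := by
    have := P_ne_zero J (J + 1) (by omega)
    simpa [hq] using this
  have hP2 : P J (2 * q) ≠ 0 := by
    have := P_ne_zero J (2 * (J + 1)) (by omega)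
    simpa [hq] using this
  have hP3 : P J (3 * q) ≠ 0 := by
    have := P_ne_zero J (3 * (J + 1)) (by omega)
    simpa [hq] using this
  set A1 := -2 * b / (q * P J q) with hA1
  set B1 := 4 * a / (q * P J q) with hB1
  set B2 := c / (2 * q * P J (2 * q)) with hB2
  set A3 := b / (3 * q * P J (3 * q)) with hA3
  set B3 := -a / (3 * q * P J (3 * q)) with hB3
  -- the full family of modes
  set m : ℕ → ℝ := fun k => if k < J then (k : ℝ) + 1 else if k = J then q
    else if k = J + 1 then 2 * q else 3 * q with hm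
  set A : ℕ → ℝ := fun k => if k < J then d (2 * k) else if k = J then A1
    else if k = J + 1 then 0 else A3 with hA
  set B : ℕ → ℝ := fun k => if k < J then d (2 * k + 1) else if k = J then B1
    else if k = J + 1 then B2 else B3 with hB
  have hsplit : ∀ g : ℕ → ℝ, ∑ k ∈ range (J + 3), g k =
      ∑ k ∈ range J, g k + (g J + g (J + 1) + g (J + 2)) := by
    intro g
    rw [show J + 3 = J + 1 + 1 + 1 from rfl, sum_range_succ, sum_range_succ, sum_range_succ]
    ring
  have v1 : m J = q ∧ A J = A1 ∧ B J = B1 := by simp [hm, hA, hB]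
  have v2 : m (J + 1) = 2 * q ∧ A (J + 1) = 0 ∧ B (J + 1) = B2 := by simp [hm, hA, hB]
  have v3 : m (J + 2) = 3 * q ∧ A (J + 2) = A3 ∧ B (J + 2) = B3 := by simp [hm, hA, hB]
  have v0 : ∀ k ∈ range J, m k = (k : ℝ) + 1 ∧ A k = d (2 * k) ∧ B k = d (2 * k + 1) := by
    intro k hk
    have hk' := mem_range.1 hk
    simp [hm, hA, hB, hk']
  have hall : ∀ i < 2 * J + 3, ∑ k ∈ range (J + 3), iteratedDeriv (i + 1) (osc (m k) (A k) (B k)) t
      = 0 := by
    intro i hi
    rw [hsplit, v1.1, v1.2.1, v1.2.2, v2.1, v2.2.1, v2.2.2, v3.1, v3.2.1, v3.2.2]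
    rw [sum_congr rfl fun k hk => by rw [(v0 k hk).1, (v0 k hk).2.1, (v0 k hk).2.2]]
    have h1 := h i hi
    rw [sum_modes, triple_eq] at h1
    exact h1
  have hkey : ∀ j < 3, P J q * iteratedDeriv (j + 1) (osc q A1 B1) t +
      P J (2 * q) * iteratedDeriv (j + 1) (osc (2 * q) 0 B2) t +
      P J (3 * q) * iteratedDeriv (j + 1) (osc (3 * q) A3 B3) t = 0 := by
    intro j hj
    have h1 := poly_sum_eq_zero (modePoly (range J)) (range (J + 3)) m A B (2 * J + 3) j t
      (by rw [modePoly_natDegree, card_range]; omega) hall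
    rw [hsplit, v1.1, v1.2.1, v1.2.2, v2.1, v2.2.1, v2.2.2, v3.1, v3.2.1, v3.2.2] at h1
    have h2 : ∑ k ∈ range J, (modePoly (range J)).eval (-(m k) ^ 2) *
        iteratedDeriv (j + 1) (osc (m k) (A k) (B k)) t = 0 := by
      refine sum_eq_zero fun k hk => ?_
      have : (modePoly (range J)).eval (-(m k) ^ 2) = 0 := by
        rw [modePoly_eval, (v0 k hk).1]
        exact prod_eq_zero hk (by ring)
      rw [this, zero_mul]
    rw [h2, zero_add] at h1
    exact h1
  have k0 := hkey 0 (by norm_num)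
  have k1 := hkey 1 (by norm_num)
  have k2 := hkey 2 (by norm_num)
  rw [show (0 + 1 : ℕ) = 1 from rfl] at k0
  rw [show (1 + 1 : ℕ) = 0 + 2 from rfl] at k1
  rw [show (2 + 1 : ℕ) = 1 + 2 from rfl] at k2
  simp only [iteratedDeriv_osc_two, iteratedDeriv_osc_one, iteratedDeriv_zero] at k0 k1 k2
  have e1 : q * B1 * P J q = 4 * a := by rw [hB1]; field_simp
  have e1' : q * A1 * P J q = -2 * b := by rw [hA1]; field_simp
  have e2 : 2 * q * B2 * P J (2 * q) = c := by rw [hB2]; field_simp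
  have e3 : 3 * q * B3 * P J (3 * q) = -a := by rw [hB3]; field_simp
  have e3' : 3 * q * A3 * P J (3 * q) = b := by rw [hA3]; field_simp
  have hx2 : 2 * q * t = 2 * (q * t) := by ring
  have hx3 : 3 * q * t = 3 * (q * t) := by ring
  simp only [osc, hx2, hx3] at k0 k1 k2
  set x := q * t with hx
  have f0 : a * (4 * cos x - cos (3 * x)) + b * (2 * sin x - sin (3 * x)) + c * cos (2 * x) = 0 := by
    linear_combination k0 - cos x * e1 + sin x * e1' - cos (2 * x) * e2 - cos (3 * x) * e3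
      + sin (3 * x) * e3'
  have f1 : a * (-4 * sin x + 3 * sin (3 * x)) + b * (2 * cos x - 3 * cos (3 * x))
      + c * (-2 * sin (2 * x)) = 0 := by
    have : q * (a * (-4 * sin x + 3 * sin (3 * x)) + b * (2 * cos x - 3 * cos (3 * x))
      + c * (-2 * sin (2 * x))) = 0 := by
      linear_combination k1 + q * sin x * e1 + q * cos x * e1' + 2 * q * sin (2 * x) * e2
        + 3 * q * sin (3 * x) * e3 + 3 * q * cos (3 * x) * e3'
    exact (mul_eq_zero.1 this).resolve_left hq0
  have f2 : a * (-4 * cos x + 9 * cos (3 * x)) + b * (-2 * sin x + 9 * sin (3 * x))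
      + c * (-4 * cos (2 * x)) = 0 := by
    have : q ^ 2 * (a * (-4 * cos x + 9 * cos (3 * x)) + b * (-2 * sin x + 9 * sin (3 * x))
      + c * (-4 * cos (2 * x))) = 0 := by
      linear_combination k2 + q ^ 2 * cos x * e1 - q ^ 2 * sin x * e1'
        + 4 * q ^ 2 * cos (2 * x) * e2 + 9 * q ^ 2 * cos (3 * x) * e3
        - 9 * q ^ 2 * sin (3 * x) * e3'
    exact (mul_eq_zero.1 this).resolve_left (by positivity)
  obtain ⟨ha, hb, hc⟩ := base_curve f0 f1 f2
  refine ⟨?_, ha, hb, hc⟩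
  apply even_core J d t
  intro j hj
  have := h j (by omega)
  rw [ha, hb, hc] at this
  simpa using this

lemma weighted_iteratedDeriv (n J : ℕ) (δ : ℝ) (i : Fin n) (j : ℕ) (t : ℝ) :
    (iteratedDeriv j (curve n J δ) t) i =
      (if (i : ℕ) < 2 then 1 else δ) * iteratedDeriv j (Z J i) t := by
  rw [iteratedDeriv_coord (curve_contDiff n J δ)]
  show iteratedDeriv j (fun s => (if (i : ℕ) < 2 then 1 else δ) * Z J i s) t = _
  rw [iteratedDeriv_const_mul_field]

lemma curve_nondeg_even (J : ℕ) {δ : ℝ} (hδ : 0 < δ) : Nondegenerate (2 * J) (curve (2 * J) J δ) := by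
  intro t
  apply linInd_of
  intro c hc
  set d : ℕ → ℝ := fun i => if h : i < 2 * J then c ⟨i, h⟩ * (if i < 2 then 1 else δ) else 0 with hd
  have hdz : ∀ i < 2 * J, d i = 0 := by
    apply even_core J d t
    intro j hj
    have h1 := hc ⟨j, hj⟩
    rw [← h1, ← Fin.sum_univ_eq_sum_range (fun i => d i * iteratedDeriv (j + 1) (X i) t) (2 * J)]
    refine sum_congr rfl fun i _ => ?_
    rw [weighted_iteratedDeriv]
    have : Z J i = X i := by simp [Z, i.2]
    rw [this]
    simp only [hd, i.2, dif_pos]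
    ring
  funext i
  have h2 := hdz i i.2
  simp only [hd, i.2, dif_pos] at h2
  have h3 : (if (i : ℕ) < 2 then (1 : ℝ) else δ) ≠ 0 := by
    split_ifs
    · exact one_ne_zero
    · exact hδ.ne'
  exact (mul_eq_zero.1 h2).resolve_right h3

lemma curve_nondeg_odd (J : ℕ) {δ : ℝ} (hδ : 0 < δ) :
    Nondegenerate (2 * J + 3) (curve (2 * J + 3) J δ) := by
  intro t
  apply linInd_of
  intro c hc
  set d : ℕ → ℝ := fun i => if h : i < 2 * J + 3 then c ⟨i, h⟩ * (if i < 2 then 1 else δ) else 0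
    with hd
  have hdz : (∀ i < 2 * J, d i = 0) ∧ d (2 * J) = 0 ∧ d (2 * J + 1) = 0 ∧ d (2 * J + 2) = 0 := by
    apply odd_core J d _ _ _ t
    intro j hj
    have h1 := hc ⟨j, hj⟩
    have h2 : ∑ i : Fin (2 * J + 3), c i * (iteratedDeriv (j + 1) (curve (2 * J + 3) J δ) t) i =
        ∑ i ∈ range (2 * J + 3), d i * iteratedDeriv (j + 1) (Z J i) t := by
      rw [← Fin.sum_univ_eq_sum_range (fun i => d i * iteratedDeriv (j + 1) (Z J i) t) (2 * J + 3)]
      refine sum_congr rfl fun i _ => ?_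
      rw [weighted_iteratedDeriv]
      simp only [hd, i.2, dif_pos]
      ring
    rw [show ((⟨j, hj⟩ : Fin (2 * J + 3)) : ℕ) = j from rfl, h2,
      show 2 * J + 3 = 2 * J + 1 + 1 + 1 from rfl, sum_range_succ, sum_range_succ,
      sum_range_succ] at h1
    have z0 : Z J (2 * J) = Y J 0 := by simp [Z]
    have z1 : Z J (2 * J + 1) = Y J 1 := by simp [Z]
    have z2 : Z J (2 * J + 1 + 1) = Y J 2 := by
      simp only [Z]
      have : ¬ (2 * J + 1 + 1 < 2 * J) := by omega
      have h3 : 2 * J + 1 + 1 - 2 * J = 2 := by omega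
      simp [this, h3]
    have z3 : ∑ i ∈ range (2 * J), d i * iteratedDeriv (j + 1) (Z J i) t =
        ∑ i ∈ range (2 * J), d i * iteratedDeriv (j + 1) (X i) t := by
      refine sum_congr rfl fun i hi => ?_
      have : Z J i = X i := by simp [Z, mem_range.1 hi]
      rw [this]
    rw [z0, z1, z2, z3] at h1
    rw [← h1, show 2 * J + 1 + 1 = 2 * J + 2 from rfl]
    ring
  funext i
  have h2 : d i = 0 := by
    rcases lt_trichotomy (i : ℕ) (2 * J) with h | h | h
    · exact hdz.1 i h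
    · rw [h]; exact hdz.2.1
    · have := i.2
      rcases (by omega : (i : ℕ) = 2 * J + 1 ∨ (i : ℕ) = 2 * J + 2) with h' | h'
      · rw [h']; exact hdz.2.2.1
      · rw [h']; exact hdz.2.2.2
  simp only [hd, i.2, dif_pos] at h2
  have h3 : (if (i : ℕ) < 2 then (1 : ℝ) else δ) ≠ 0 := by
    split_ifs
    · exact one_ne_zero
    · exact hδ.ne'
  exact (mul_eq_zero.1 h2).resolve_right h3

/-- Once is enough: for `n ≥ 4` the circle `c_1` can be perturbed to a nondegenerate curve. -/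
theorem perturbable_one (n : ℕ) (hn : 4 ≤ n) : Perturbable n 1 := by
  intro r ε hε
  rcases Nat.even_or_odd' n with ⟨J, hJ | hJ⟩
  · obtain ⟨δ, hδ, hcl⟩ := curve_close n J (by omega) r hε
    refine ⟨curve n J δ, ⟨curve_contDiff n J δ, curve_periodic n J δ⟩, ?_, hcl⟩
    subst hJ
    exact curve_nondeg_even J hδ
  · obtain ⟨K, hK⟩ : ∃ K, J = K + 1 := ⟨J - 1, by omega⟩
    obtain ⟨δ, hδ, hcl⟩ := curve_close n K (by omega) r hε
    refine ⟨curve n K δ, ⟨curve_contDiff n K δ, curve_periodic n K δ⟩, ?_, hcl⟩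
    have : n = 2 * K + 3 := by omega
    subst this
    exact curve_nondeg_odd K hδ

end Pool.Agent.K1H62.ND
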