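import Mathlib

/-!
Trigonometric modes and their iterated derivatives; the elimination lemmas behind the
nondegeneracy of the model curves.
-/

open Real Finset

namespace Pool.Agent.K1H62.ND

/-- `A cos (m t) + B sin (m t)` -/
noncomputable def osc (m A B : ℝ) (t : ℝ) : ℝ := A * cos (m * t) + B * sin (m * t)

lemma osc_contDiff (m A B : ℝ) (N : WithTop ℕ∞) : ContDiff ℝ N (osc m A B) := by
  unfold osc
  fun_prop

lemma deriv_osc (m A B : ℝ) : deriv (osc m A B) = osc m (m * B) (-(m * A)) := by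
  funext t
  have h : HasDerivAt (osc m A B) (A * (-sin (m * t) * (m * 1)) + B * (cos (m * t) * (m * 1))) t := by
    unfold osc
    exact ((((hasDerivAt_id t).const_mul m).cos).const_mul A).add
      ((((hasDerivAt_id t).const_mul m).sin).const_mul B)
  rw [h.deriv]
  unfold osc
  ring

lemma iteratedDeriv_osc_two (j : ℕ) (m A B t : ℝ) :
    iteratedDeriv (j + 2) (osc m A B) t = -m ^ 2 * iteratedDeriv j (osc m A B) t := by
  rw [iteratedDeriv_succ', iteratedDeriv_succ', deriv_osc, deriv_osc]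
  have : osc m (m * -(m * A)) (-(m * (m * B))) = fun s => (-m ^ 2) * osc m A B s := by
    funext s
    unfold osc
    ring
  rw [this, iteratedDeriv_const_mul_field]

lemma iteratedDeriv_osc_even (l j : ℕ) (m A B t : ℝ) :
    iteratedDeriv (2 * l + j) (osc m A B) t = (-m ^ 2) ^ l * iteratedDeriv j (osc m A B) t := by
  induction l with
  | zero => simp
  | succ l ih =>
    have : 2 * (l + 1) + j = (2 * l + j) + 2 := by ring
    rw [this, iteratedDeriv_osc_two, ih]
    ring

lemma iteratedDeriv_osc_one (m A B t : ℝ) :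
    iteratedDeriv 1 (osc m A B) t = osc m (m * B) (-(m * A)) t := by
  rw [iteratedDeriv_one, deriv_osc]

lemma osc_eq_zero_of {m A B t : ℝ} (hm : m ≠ 0) (h1 : iteratedDeriv 1 (osc m A B) t = 0)
    (h2 : iteratedDeriv 2 (osc m A B) t = 0) : A = 0 ∧ B = 0 := by
  rw [iteratedDeriv_osc_one] at h1
  rw [show (2 : ℕ) = 0 + 2 from rfl, iteratedDeriv_osc_two, iteratedDeriv_zero] at h2
  have h2' : osc m A B t = 0 := by
    rcases mul_eq_zero.1 h2 with h | h
    · exact absurd (by simpa using h) hm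
    · exact h
  unfold osc at h1 h2'
  have hc := sin_sq_add_cos_sq (m * t)
  have h1' : B * cos (m * t) - A * sin (m * t) = 0 := by
    have : m * (B * cos (m * t) - A * sin (m * t)) = 0 := by linarith
    exact (mul_eq_zero.1 this).resolve_left hm
  constructor
  · have : A * (sin (m * t) ^ 2 + cos (m * t) ^ 2) = 0 := by
      linear_combination cos (m * t) * h2' - sin (m * t) * h1'
    simpa [hc] using this
  · have : B * (sin (m * t) ^ 2 + cos (m * t) ^ 2) = 0 := by
      linear_combination sin (m * t) * h2' + cos (m * t) * h1'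
    simpa [hc] using this

/-- An even differential operator acts on each mode as a scalar. -/
lemma poly_sum (R : Polynomial ℝ) (K : Finset ℕ) (m A B : ℕ → ℝ) (j : ℕ) (t : ℝ) :
    ∑ l ∈ range (R.natDegree + 1), R.coeff l *
      (∑ k ∈ K, iteratedDeriv (2 * l + j) (osc (m k) (A k) (B k)) t) =
    ∑ k ∈ K, R.eval (-(m k) ^ 2) * iteratedDeriv j (osc (m k) (A k) (B k)) t := by
  simp_rw [mul_sum]
  rw [sum_comm]
  refine sum_congr rfl fun k _ => ?_
  rw [Polynomial.eval_eq_sum_range, sum_mul]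
  refine sum_congr rfl fun l _ => ?_
  rw [iteratedDeriv_osc_even]
  ring

/-- Elimination: if enough derivatives of a sum of modes vanish at a point, then an even operator
of the right degree may be applied. -/
lemma poly_sum_eq_zero (R : Polynomial ℝ) (K : Finset ℕ) (m A B : ℕ → ℝ) (N j : ℕ) (t : ℝ)
    (hN : 2 * R.natDegree + j < N)
    (h : ∀ i < N, ∑ k ∈ K, iteratedDeriv (i + 1) (osc (m k) (A k) (B k)) t = 0) :
    ∑ k ∈ K, R.eval (-(m k) ^ 2) * iteratedDeriv (j + 1) (osc (m k) (A k) (B k)) t = 0 := by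
  rw [← poly_sum R K m A B (j + 1) t]
  refine sum_eq_zero fun l hl => ?_
  have hl' : l ≤ R.natDegree := by
    have := mem_range.1 hl
    omega
  have := h (2 * l + j) (by omega)
  rw [show 2 * l + (j + 1) = 2 * l + j + 1 from rfl, this, mul_zero]

/-- the polynomial `∏_{k ∈ s} (X + (k+1)²)` -/
noncomputable def modePoly (s : Finset ℕ) : Polynomial ℝ :=
  ∏ k ∈ s, (Polynomial.X + Polynomial.C (((k : ℝ) + 1) ^ 2))

lemma modePoly_natDegree (s : Finset ℕ) : (modePoly s).natDegree = s.card := by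
  unfold modePoly
  rw [Polynomial.natDegree_prod_of_monic _ _ fun k _ => Polynomial.monic_X_add_C _]
  simp only [Polynomial.natDegree_X_add_C, sum_const, smul_eq_mul, mul_one]

lemma modePoly_eval (s : Finset ℕ) (x : ℝ) :
    (modePoly s).eval x = ∏ k ∈ s, (x + ((k : ℝ) + 1) ^ 2) := by
  unfold modePoly
  rw [Polynomial.eval_prod]
  simp

lemma modePoly_eval_ne_zero (s : Finset ℕ) (m : ℕ) (hm : ∀ k ∈ s, k + 1 ≠ m) :
    (modePoly s).eval (-(m : ℝ) ^ 2) ≠ 0 := by
  rw [modePoly_eval, prod_ne_zero_iff]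
  intro k hk h
  have h1 : ((k : ℝ) + 1) ^ 2 = (m : ℝ) ^ 2 := by linarith
  have h2 : ((k : ℝ) + 1) = m := by
    have h3 : (0 : ℝ) ≤ (k : ℝ) + 1 := by positivity
    have h4 : (0 : ℝ) ≤ (m : ℝ) := by positivity
    exact (sq_eq_sq₀ h3 h4).1 h1
  exact hm k hk (by exact_mod_cast h2)

/-- Modes `1, …, J`: if `2 J` consecutive derivatives vanish then all coefficients vanish. -/
lemma modes_eq_zero (J : ℕ) (A B : ℕ → ℝ) (t : ℝ)
    (h : ∀ i < 2 * J, ∑ k ∈ range J, iteratedDeriv (i + 1) (osc ((k : ℝ) + 1) (A k) (B k)) t = 0) :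
    ∀ k < J, A k = 0 ∧ B k = 0 := by
  intro k0 hk0
  have hmem : k0 ∈ range J := mem_range.2 hk0
  have hdeg : (modePoly ((range J).erase k0)).natDegree = J - 1 := by
    rw [modePoly_natDegree, card_erase_of_mem hmem, card_range]
  have key : ∀ j < 2, iteratedDeriv (j + 1) (osc ((k0 : ℝ) + 1) (A k0) (B k0)) t = 0 := by
    intro j hj
    have h1 := poly_sum_eq_zero (modePoly ((range J).erase k0)) (range J)
      (fun k => (k : ℝ) + 1) A B (2 * J) j t (by rw [hdeg]; omega) h
    rw [sum_eq_single k0] at h1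
    · refine (mul_eq_zero.1 h1).resolve_left ?_
      have := modePoly_eval_ne_zero ((range J).erase k0) (k0 + 1) (by
        intro k hk
        have := ne_of_mem_erase hk
        omega)
      simpa using this
    · intro k hk hkk
      have : (modePoly ((range J).erase k0)).eval (-((k : ℝ) + 1) ^ 2) = 0 := by
        rw [modePoly_eval]
        exact prod_eq_zero (mem_erase.2 ⟨hkk, hk⟩) (by ring)
      rw [this, zero_mul]
    · intro hh
      exact absurd hmem hh
  exact osc_eq_zero_of (by positivity) (key 0 (by norm_num)) (key 1 (by norm_num))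

/-- The base curve in three-space: the Wronskian of
`(4 cos x - cos 3x, 2 sin x - sin 3x, cos 2x)` is positive, in the form needed below. -/
lemma base_curve {a b c x : ℝ}
    (h0 : a * (4 * cos x - cos (3 * x)) + b * (2 * sin x - sin (3 * x)) + c * cos (2 * x) = 0)
    (h1 : a * (-4 * sin x + 3 * sin (3 * x)) + b * (2 * cos x - 3 * cos (3 * x))
      + c * (-2 * sin (2 * x)) = 0)
    (h2 : a * (-4 * cos x + 9 * cos (3 * x)) + b * (-2 * sin x + 9 * sin (3 * x))
      + c * (-4 * cos (2 * x)) = 0) : a = 0 ∧ b = 0 ∧ c = 0 := by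
  rw [cos_three_mul, sin_three_mul] at h0 h1 h2
  rw [cos_two_mul] at h0 h2
  rw [sin_two_mul] at h1
  set C := cos x
  set S := sin x
  have hcs : S ^ 2 = 1 - C ^ 2 := by
    have := sin_sq_add_cos_sq x
    simp only [S, C]
    linarith
  have hC1 : C ^ 2 ≤ 1 := by nlinarith [sq_nonneg S]
  set y := 2 * C ^ 2 - 1 with hy
  have hy1 : y ≤ 1 := by linarith
  have hy2 : -1 ≤ y := by nlinarith [sq_nonneg C]
  have hD : 0 < 48 + 9 * y - 36 * y ^ 2 - 4 * y ^ 3 := by
    nlinarith [mul_nonneg (by linarith : (0:ℝ) ≤ 1 - y) (by linarith : (0:ℝ) ≤ 1 + y),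
      mul_nonneg (mul_nonneg (by linarith : (0:ℝ) ≤ 1 - y) (by linarith : (0:ℝ) ≤ 1 + y))
        (by linarith : (0:ℝ) ≤ 36 + 4 * y)]
  -- cofactors
  set h01 := 4 * C - (4 * C ^ 3 - 3 * C)
  set h02 := 2 * S - (3 * S - 4 * S ^ 3)
  set h11 := -4 * S + 3 * (3 * S - 4 * S ^ 3)
  set h12 := 2 * C - 3 * (4 * C ^ 3 - 3 * C)
  set h13 := -2 * (2 * S * C)
  set h21 := -4 * C + 9 * (4 * C ^ 3 - 3 * C)
  set h22 := -2 * S + 9 * (3 * S - 4 * S ^ 3)
  have hdet : h01 * (h12 * (-4 * y) - h13 * h22) - h02 * (h11 * (-4 * y) - h13 * h21)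
      + y * (h11 * h22 - h12 * h21) = 48 + 9 * y - 36 * y ^ 2 - 4 * y ^ 3 := by
    have e1 : S ^ 4 = (1 - C ^ 2) ^ 2 := by rw [← hcs]; ring
    have e2 : S ^ 6 = (1 - C ^ 2) ^ 3 := by rw [← hcs]; ring
    simp only [h01, h02, h11, h12, h13, h21, h22, hy]
    ring_nf
    simp only [hcs, e1, e2]
    ring
  have hne := hD.ne'
  refine ⟨?_, ?_, ?_⟩
  · have : a * (48 + 9 * y - 36 * y ^ 2 - 4 * y ^ 3) = 0 := by
      rw [← hdet]
      linear_combination (h12 * (-4 * y) - h13 * h22) * h0 - (h02 * (-4 * y) - y * h22) * h1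
        + (h02 * h13 - y * h12) * h2
    exact (mul_eq_zero.1 this).resolve_right hne
  · have : b * (48 + 9 * y - 36 * y ^ 2 - 4 * y ^ 3) = 0 := by
      rw [← hdet]
      linear_combination -(h11 * (-4 * y) - h13 * h21) * h0 + (h01 * (-4 * y) - y * h21) * h1
        - (h01 * h13 - y * h11) * h2
    exact (mul_eq_zero.1 this).resolve_right hne
  · have : c * (48 + 9 * y - 36 * y ^ 2 - 4 * y ^ 3) = 0 := by
      rw [← hdet]
      linear_combination (h11 * h22 - h12 * h21) * h0 - (h01 * h22 - h02 * h21) * h1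
        + (h01 * h12 - h02 * h11) * h2
    exact (mul_eq_zero.1 this).resolve_right hne

end Pool.Agent.K1H62.ND
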